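import Mathlib
import Pool.Agent.Q105.Boot.Linear
import Pool.Agent.Q105.Boot.Lower

set_option autoImplicit false

/-!
# The maximum running time of percolating starting graphs can be of smaller order

For the disjoint union `H` of `K_5` and `K_6` with an ear, every percolating starting graph with `n`
vertices finishes in at most `241 n + 18` rounds, while the maximum running time over all starting
graphs is superlinear.
-/

open SimpleGraph Asymptotics Filter

namespace Pool.Agent.Results.MP_000f96_co.NotTheta

open Pool.Agent.Q105.Boot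

/-- There is a finite graph `H` for which `M_H` is not of the order of the maximum running time
`M'_H` of percolating starting graphs. -/
theorem result : ∃ (W : Type) (_ : Fintype W) (H : SimpleGraph W),
    (∀ n, maxPercTime H n ≤ 241 * n + 18) ∧
    (∀ C N : ℕ, ∃ n ≥ N, C * n < maxTime H n) ∧
    (∀ C N : ℕ, ∃ n ≥ N, C * maxPercTime H n < maxTime H n) ∧
    ¬ ((fun n => (maxTime H n : ℝ)) =Θ[atTop] fun n => (maxPercTime H n : ℝ)) := by
  have hperc : ∀ n, maxPercTime rule n ≤ 241 * n + 18 := by
    intro n
    apply maxPercTime_le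
    intro V _ G hc hp
    rw [← hc]
    exact tau_le_linear hp
  have hbig : ∀ C N : ℕ, ∃ n ≥ N, 1 ≤ n ∧ C * n < maxTime rule n := by
    intro C N
    obtain ⟨V, i, G, h1, h2⟩ := superlinear (C + N + 1)
    refine ⟨Fintype.card V, by omega, by omega, ?_⟩
    have h3 := tau_le_maxTime rule G
    nlinarith
  have hratio : ∀ C N : ℕ, ∃ n ≥ N, C * maxPercTime rule n < maxTime rule n := by
    intro C N
    obtain ⟨n, hn, hn1, h⟩ := hbig (259 * C) N
    refine ⟨n, hn, lt_of_le_of_lt ?_ h⟩
    calc C * maxPercTime rule n ≤ C * (241 * n + 18) := Nat.mul_le_mul_left _ (hperc n)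
      _ ≤ C * (259 * n) := Nat.mul_le_mul_left _ (by omega)
      _ = 259 * C * n := by ring
  refine ⟨_, inferInstance, rule, hperc, ?_, hratio, ?_⟩
  · intro C N
    obtain ⟨n, hn, -, h⟩ := hbig C N
    exact ⟨n, hn, h⟩
  · intro hT
    obtain ⟨c, hc⟩ := hT.1.bound
    rw [eventually_atTop] at hc
    obtain ⟨N, hN⟩ := hc
    obtain ⟨C, hC⟩ := exists_nat_ge c
    obtain ⟨n, hn, h⟩ := hratio C N
    have h1 := hN n hn
    rw [Real.norm_of_nonneg (by positivity), Real.norm_of_nonneg (by positivity)] at h1
    have h2 : (maxTime rule n : ℝ) ≤ ((C * maxPercTime rule n : ℕ) : ℝ) := by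
      push_cast
      exact h1.trans (mul_le_mul_of_nonneg_right hC (by positivity))
    have h3 : maxTime rule n ≤ C * maxPercTime rule n := by exact_mod_cast h2
    omega

end Pool.Agent.Results.MP_000f96_co.NotTheta
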